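import Mathlib

namespace Pool.Agent.Results.MP_d10a06_co.Two

/-- `A` is `t`-independent. -/
def Indep (t : ℕ) {G : Type} [AddCommGroup G] (A : Finset G) : Prop :=
  ∀ l : G → ℤ, (∑ a ∈ A, |l a|) ≤ (t : ℤ) → (∑ a ∈ A, l a • a) = 0 → ∀ a ∈ A, l a = 0

def P2 (t : ℕ) {G : Type} [AddCommGroup G] (a b : G) : Prop :=
  ∀ x y : ℤ, |x| + |y| ≤ (t : ℤ) → x • a + y • b = 0 → x = 0 ∧ y = 0

lemma pair {t : ℕ} {G : Type} [AddCommGroup G] {A : Finset G} (h : Indep t A)
    (h2 : 1 < A.card) : ∃ a b : G, P2 t a b := by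
  classical
  obtain ⟨a, ha, b, hb, hab⟩ := Finset.one_lt_card.1 h2
  refine ⟨a, b, fun x y h1 h3 => ?_⟩
  have := h (fun z => if z = a then x else if z = b then y else 0) (by
    rw [Finset.sum_eq_add_of_mem a b ha hb hab (by intro c _ hc; simp [hc.1, hc.2])]
    simpa [hab.symm] using h1) (by
    rw [Finset.sum_eq_add_of_mem a b ha hb hab (by intro c _ hc; simp [hc.1, hc.2])]
    simpa [hab.symm] using h3)
  exact ⟨by simpa using this a ha, by simpa [hab.symm] using this b hb⟩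

lemma unpair {t : ℕ} (ht : 2 ≤ t) {G : Type} [AddCommGroup G] {a b : G} (h : P2 t a b) :
    ∃ A : Finset G, Indep t A ∧ A.card = 2 := by
  classical
  have hab : a ≠ b := by
    rintro rfl
    have := h 1 (-1) (by simp; omega) (by simp)
    omega
  refine ⟨{a, b}, fun l h1 h2 => ?_, Finset.card_pair hab⟩
  rw [Finset.sum_pair hab] at h1 h2
  have := h _ _ h1 h2
  intro c hc
  simp at hc
  rcases hc with rfl | rfl
  exacts [this.1, this.2]

lemma box {G : Type} [AddCommGroup G] [Finite G] (a b : G) (s U : ℕ) (h : Nat.card G < U * s) :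
    ∃ x y : ℤ, (x ≠ 0 ∨ y ≠ 0) ∧ |x + y| < U ∧ |x - y| < 2 * s ∧ x • a + y • b = 0 := by
  classical
  haveI := Fintype.ofFinite G
  obtain ⟨⟨u, j⟩, ⟨u', j'⟩, hne, he⟩ := Fintype.exists_ne_map_eq_of_card_lt
    (fun p : Fin U × Fin s => ((((p.1 : ℤ) + 1) / 2 + (p.2 : ℤ)) • a + ((p.1 : ℤ) / 2 - (p.2 : ℤ)) • b))
    (by simpa [Nat.card_eq_fintype_card] using h)
  have h1 := u.2
  have h2 := u'.2
  have h3 := j.2
  have h4 := j'.2
  refine ⟨(((u : ℤ) + 1) / 2 + j) - (((u' : ℤ) + 1) / 2 + j'), ((u : ℤ) / 2 - j) - ((u' : ℤ) / 2 - j'),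
    ?_, ?_, ?_, ?_⟩
  · by_contra hc
    push Not at hc
    apply hne
    refine Prod.ext (Fin.ext ?_) (Fin.ext ?_) <;> simp only <;> omega
  · rw [abs_lt]; omega
  · rw [abs_lt]; omega
  · simp only at he
    rw [sub_smul, sub_smul]
    have := sub_eq_zero.2 he
    rw [← this]; abel

lemma lower {s : ℕ} (hs : 1 ≤ s) {G : Type} [AddCommGroup G] [Finite G] {a b : G}
    (h : P2 (2 * s - 1) a b) : 2 * s * s ≤ Nat.card G := by
  by_contra hc
  push Not at hc
  obtain ⟨x, y, h0, h1, h2, h3⟩ := box a b s (2 * s) hc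
  rw [abs_lt] at h1 h2
  have := h x y (by rcases abs_cases x with ⟨e, _⟩ | ⟨e, _⟩ <;> rcases abs_cases y with ⟨f, _⟩ | ⟨f, _⟩ <;> omega) h3
  omega

lemma kill {s n : ℕ} (hs : 1 ≤ s) (hn0 : 0 < n) (hn : n < 2 * (2 * s * s)) {a b : ZMod n}
    (h : P2 (2 * s - 1) a b) (g : ℤ) (ha : g • a = 0) (hb : g • b = 0) : (n : ℤ) ∣ g := by
  haveI : NeZero n := ⟨hn0.ne'⟩
  let K : AddSubgroup (ZMod n) := (zsmulAddGroupHom g : ZMod n →+ ZMod n).ker
  have hK : P2 (2 * s - 1) (⟨a, ha⟩ : K) ⟨b, hb⟩ := fun x y h1 h2 =>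
    h x y h1 (by simpa using congrArg Subtype.val h2)
  have h1 := lower hs hK
  have h2 := K.card_mul_index
  rw [Nat.card_zmod] at h2
  have h3 : K.index = 1 := by
    rcases hi : K.index with _ | _ | k
    · rw [hi] at h2; omega
    · rfl
    · rw [hi] at h2; nlinarith
  rw [AddSubgroup.index_eq_one] at h3
  have h4 : (1 : ZMod n) ∈ K := by rw [h3]; trivial
  have h5 : g • (1 : ZMod n) = 0 := h4
  rw [← ZMod.intCast_zmod_eq_zero_iff_dvd]
  simpa using h5

lemma vec {s n : ℕ} (hs : 1 ≤ s) (hn0 : 0 < n) (hn : n < (2 * s + 1) * s) {a b : ZMod n}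
    (h : P2 (2 * s - 1) a b) : ∃ c : ℤ, |c| < s ∧ ((s : ℤ) + c) • a + ((s : ℤ) - c) • b = 0 := by
  haveI : NeZero n := ⟨hn0.ne'⟩
  obtain ⟨x, y, h0, h1, h2, h3⟩ := box a b s (2 * s + 1) (by rwa [Nat.card_zmod])
  rw [abs_lt] at h1 h2
  have h4 : x + y = 2 * s ∨ x + y = -(2 * s) := by
    by_contra hc
    have := h x y (by rcases abs_cases x with ⟨e, _⟩ | ⟨e, _⟩ <;> rcases abs_cases y with ⟨f, _⟩ | ⟨f, _⟩ <;> omega) h3
    omega
  rcases h4 with h4 | h4
  · refine ⟨x - s, by rw [abs_lt]; omega, ?_⟩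
    rw [← h3]; congr 2 <;> omega
  · refine ⟨-x - s, by rw [abs_lt]; omega, ?_⟩
    have e1 : (s : ℤ) + (-x - s) = -x := by omega
    have e2 : (s : ℤ) - (-x - s) = -y := by omega
    rw [e1, e2, neg_smul, neg_smul, ← neg_add, h3, neg_zero]

lemma key {s n : ℕ} (hs : 2 ≤ s) (h1 : 2 * s * s < n) (hn : n < (2 * s + 1) * s) {a b : ZMod n}
    (h : P2 (2 * s - 1) a b) : n % 2 = 0 ∧ (s % 2 = 1 → n % 4 ≠ 0) := by
  have hn0 : 0 < n := by omega
  have h' : P2 (2 * s - 1) a (-b) := fun x y e1 e2 => by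
    have := h x (-y) (by simpa using e1) (by simpa using e2)
    omega
  obtain ⟨c, hc, ec⟩ := vec (by omega) hn0 hn h
  obtain ⟨d, hd, ed⟩ := vec (by omega) hn0 hn h'
  rw [abs_lt] at hc hd
  have hcd : c * d ≤ 0 := by
    by_contra hp
    push Not at hp
    rcases pos_and_pos_or_neg_and_neg_of_mul_pos hp with ⟨p1, p2⟩ | ⟨p1, p2⟩
    · have := h (c - d) (2 * s - c - d) (by
        rcases abs_cases (c - d) with ⟨e, _⟩ | ⟨e, _⟩ <;>
          rcases abs_cases (2 * s - c - d) with ⟨f, _⟩ | ⟨f, _⟩ <;> omega) (by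
        simp only [zsmul_eq_mul] at ec ed ⊢; push_cast at ec ed ⊢; linear_combination ec - ed)
      omega
    · have := h (2 * s + c + d) (d - c) (by
        rcases abs_cases (d - c) with ⟨e, _⟩ | ⟨e, _⟩ <;>
          rcases abs_cases (2 * s + c + d) with ⟨f, _⟩ | ⟨f, _⟩ <;> omega) (by
        simp only [zsmul_eq_mul] at ec ed ⊢; push_cast at ec ed ⊢; linear_combination ec + ed)
      omega
  have hlt : n < 2 * (2 * s * s) := by nlinarith
  have hz1 : (2 * s * s : ℤ) < n := by exact_mod_cast h1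
  have hb : -(c * d) < s * s := by nlinarith
  obtain ⟨k, hk⟩ := kill (by omega) hn0 hlt h (2 * (s * s - c * d))
    (by simp only [zsmul_eq_mul] at ec ed ⊢; push_cast at ec ed ⊢
        linear_combination ((s : ZMod n) - d) * ec + ((s : ZMod n) - c) * ed)
    (by simp only [zsmul_eq_mul] at ec ed ⊢; push_cast at ec ed ⊢
        linear_combination ((s : ZMod n) + d) * ec - ((s : ZMod n) + c) * ed)
  have hk1 : k = 1 := by
    have : 0 < k := by nlinarith
    have : k < 2 := by nlinarith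
    omega
  rw [hk1, mul_one] at hk
  refine ⟨by omega, fun hs1 h4 => ?_⟩
  have hodd : Odd (c * d) := by
    have : Odd ((s : ℤ) * s) := by
      have : Odd (s : ℤ) := Int.odd_iff.2 (by omega)
      exact this.mul this
    rw [Int.odd_iff] at this ⊢
    omega
  obtain ⟨⟨c', hc'⟩, ⟨d', hd'⟩⟩ := Int.odd_mul.1 hodd
  obtain ⟨r, hr⟩ : ∃ r : ℤ, (s : ℤ) = 2 * r + 1 := ⟨s / 2, by omega⟩
  have hdv := kill (by omega) hn0 hlt h (s * s - c * d)
    (by rw [hr, hc'] at ec; rw [hr, hd'] at ed; rw [hr, hc', hd']; simp only [zsmul_eq_mul] at ec ed ⊢; push_cast at ec ed ⊢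
        linear_combination ((r : ZMod n) - d') * ec + ((r : ZMod n) - c') * ed)
    (by rw [hr, hc'] at ec; rw [hr, hd'] at ed; rw [hr, hc', hd']; simp only [zsmul_eq_mul] at ec ed ⊢; push_cast at ec ed ⊢
        linear_combination ((r : ZMod n) + d' + 1) * ec - ((r : ZMod n) + c' + 1) * ed)
  have := Int.le_of_dvd (by omega) hdv
  omega

lemma mk {t n : ℕ} (p q : ℤ)
    (H : ∀ x y : ℤ, |x| + |y| ≤ (t : ℤ) → (n : ℤ) ∣ x * p + y * q → x = 0 ∧ y = 0) :
    P2 t (p : ZMod n) (q : ZMod n) := fun x y h1 h2 => H x y h1 (by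
  rw [← ZMod.intCast_zmod_eq_zero_iff_dvd]
  simpa using h2)

lemma bnd {p q x y N : ℤ} (hp : 0 ≤ p) (hpq : p ≤ q) (h : |x| + |y| ≤ N) :
    |x * p + y * q| ≤ N * q := by
  have := abs_add_le (x * p) (y * q)
  rw [abs_mul, abs_mul, abs_of_nonneg hp, abs_of_nonneg (hp.trans hpq)] at this
  nlinarith [abs_nonneg x, abs_nonneg y]

lemma zero {p q x y : ℤ} (hp : 0 < p) (hq : 0 < q) (hc : IsCoprime p q)
    (h : |x| + |y| < p + q) (e : x * p + y * q = 0) : x = 0 ∧ y = 0 := by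
  obtain ⟨j, rfl⟩ : q ∣ x := hc.symm.dvd_of_dvd_mul_right ⟨-y, by linarith⟩
  have hy : y = -(p * j) := by
    apply mul_right_cancel₀ hq.ne'
    linarith
  subst hy
  rw [abs_neg, abs_mul, abs_mul, abs_of_pos hp, abs_of_pos hq] at h
  have : |j| < 1 := by
    by_contra hj
    push Not at hj
    nlinarith
  have : j = 0 := by rw [abs_lt] at this; omega
  simp [this]

lemma par {x y s : ℤ} (h : |x| + |y| ≤ 2 * s - 1) (he : (x + y) % 2 = 0) :
    |x| + |y| ≤ 2 * s - 2 := by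
  rcases abs_cases x with ⟨e, _⟩ | ⟨e, _⟩ <;> rcases abs_cases y with ⟨f, _⟩ | ⟨f, _⟩ <;> omega

lemma ex {s n : ℕ} (hs : 2 ≤ s) (h1 : 2 * s * s ≤ n)
    (h : (2 * s + 1) * s ≤ n ∨ (n % 2 = 0 ∧ (s % 2 = 1 → n % 4 ≠ 0))) :
    ∃ a b : ZMod n, P2 (2 * s - 1) a b := by
  have hz : (2 * s * s : ℤ) ≤ n := by exact_mod_cast h1
  have hs' : (2 : ℤ) ≤ s := by exact_mod_cast hs
  have ht : ((2 * s - 1 : ℕ) : ℤ) = 2 * s - 1 := by omega
  rcases h with h | ⟨h, h'⟩
  · have hz2 : ((2 * s + 1) * s : ℤ) ≤ n := by exact_mod_cast h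
    refine ⟨_, _, mk s (s + 1) fun x y e1 e2 => ?_⟩
    rw [ht] at e1
    refine zero (p := s) (q := s + 1) (by omega) (by omega) ⟨-1, 1, by ring⟩ (by omega)
      (Int.eq_zero_of_abs_lt_dvd e2 ?_)
    have := bnd (p := s) (q := s + 1) (by omega) (by omega) e1
    nlinarith
  · rcases Nat.mod_two_eq_zero_or_one s with hs0 | hs1
    · obtain ⟨r, hr⟩ : ∃ r : ℤ, (s : ℤ) = 2 * r := ⟨s / 2, by omega⟩
      refine ⟨_, _, mk (s - 1) (s + 1) fun x y e1 e2 => ?_⟩
      rw [ht] at e1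
      have h2 : (2 : ℤ) ∣ x * (s - 1) + y * (s + 1) := dvd_trans (by omega) e2
      have h3 : x * (s - 1) + y * (s + 1) = 2 * (r * (x + y) - x) + (x + y) := by rw [hr]; ring
      have e3 := par e1 (by omega)
      refine zero (p := s - 1) (q := s + 1) (by omega) (by omega)
        ⟨-(r + 1), r, by rw [hr]; ring⟩ (by omega) (Int.eq_zero_of_abs_lt_dvd e2 ?_)
      have := bnd (p := s - 1) (q := s + 1) (by omega) (by omega) e3
      nlinarith
    · have h4 := h' hs1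
      obtain ⟨r, hr⟩ : ∃ r : ℤ, (s : ℤ) = 2 * r + 1 := ⟨s / 2, by omega⟩
      refine ⟨_, _, mk (s - 2) (s + 2) fun x y e1 e2 => ?_⟩
      rw [ht] at e1
      have h2 : (2 : ℤ) ∣ x * (s - 2) + y * (s + 2) := dvd_trans (by omega) e2
      have h3 : x * (s - 2) + y * (s + 2) = 2 * (r * (x + y) - x + y) + (x + y) := by rw [hr]; ring
      have e3 := par e1 (by omega)
      have hc : IsCoprime ((s : ℤ) - 2) (s + 2) := by
        rcases Int.emod_two_eq_zero_or_one r with hr0 | hr0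
        · obtain ⟨k, hk⟩ : ∃ k : ℤ, r = 2 * k := ⟨r / 2, by omega⟩
          exact ⟨-(k + 1), k, by rw [hr, hk]; ring⟩
        · obtain ⟨k, hk⟩ : ∃ k : ℤ, r = 2 * k + 1 := ⟨r / 2, by omega⟩
          exact ⟨k + 1, -k, by rw [hr, hk]; ring⟩
      refine zero (p := s - 2) (q := s + 2) (by omega) (by omega) hc (by omega) ?_
      have hb := bnd (p := s - 2) (q := s + 2) (by omega) (by omega) e3
      obtain ⟨k, hk⟩ := e2
      obtain ⟨σ, hσ⟩ : ∃ σ : ℤ, x + y = 2 * σ := ⟨(x + y) / 2, by omega⟩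
      have h5 : x * (s - 2) + y * (s + 2) = 4 * (r * σ + y - σ) + 2 * σ := by
        have : x = 2 * σ - y := by omega
        rw [hr, this]; ring
      have h6 : x * (s - 2) + y * (s + 2) = 2 * s * σ + 2 * (y - x) := by
        have : x = 2 * σ - y := by omega
        rw [this]; ring
      have hk2 : |k| < 2 := by
        rw [hk, abs_mul, abs_of_nonneg (by omega : (0 : ℤ) ≤ n)] at hb
        by_contra hc
        push Not at hc
        nlinarith
      rw [abs_lt] at hk2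
      have hx1 := le_abs_self x
      have hx2 := neg_abs_le x
      have hy1 := le_abs_self y
      have hy2 := neg_abs_le y
      have : k = 0 ∨ k = 1 ∨ k = -1 := by omega
      rcases this with rfl | rfl | rfl
      · simpa using hk
      · have : σ ≤ s - 2 := by omega
        nlinarith
      · have : -σ ≤ s - 2 := by omega
        nlinarith

theorem result (s n : ℕ) (hs : 2 ≤ s) (hn : 0 < n) :
    (∃ A : Finset (ZMod n), Indep (2 * s - 1) A ∧ A.card = 2) ↔
      2 * s ^ 2 + s ≤ n ∨ (2 * s ^ 2 ≤ n ∧ n % 2 = 0 ∧ (s % 2 = 0 ∨ n % 4 = 2)) := by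
  haveI : NeZero n := ⟨hn.ne'⟩
  have e : 2 * s ^ 2 = 2 * s * s := by ring
  have hm : (2 * s + 1) * s = 2 * s * s + s := by ring
  have hpar : 2 * s * s % 2 = 0 ∧ (s % 2 = 1 → 2 * s * s % 4 = 2) := by
    refine ⟨by rw [mul_assoc]; omega, fun h => ?_⟩
    have : s * s % 2 = 1 := by rw [Nat.mul_mod, h]
    rw [mul_assoc]; omega
  rw [e]
  constructor
  · rintro ⟨A, hA, h2⟩
    obtain ⟨a, b, hab⟩ := pair hA (by omega)
    have h1 := lower (by omega) hab
    rw [Nat.card_zmod] at h1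
    by_contra hc
    have := key (s := s) (n := n) hs (by omega) (by omega) hab
    omega
  · intro h
    obtain ⟨a, b, hab⟩ := ex (s := s) (n := n) hs (by omega) (by omega)
    exact unpair (by omega) hab

end Pool.Agent.Results.MP_d10a06_co.Two
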